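import Pool.Agent.N627.ND.Stm
import Pool.Agent.N627.WS.TK

/-!
# ND/A1: infinite links contain subdivided complete graphs
-/

set_option autoImplicit false

namespace Pool.Agent.N833.ND

open Pool.Agent.N627.ND

variable {V : Type}

/-- homogeneous systems of paths -/
structure HS (G : SimpleGraph V) (L : ℕ) (q : ℕ → ℕ → ℕ → V) : Prop where
  adj : ∀ i j, i < j → ∀ a, a < L → G.Adj (q i j a) (q i j (a + 1))
  inj : ∀ i j, i < j → ∀ a b, a ≤ L → b ≤ L → q i j a = q i j b → a = b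
  left : ∀ i j k, i < j → i < k → q i j 0 = q i k 0
  right : ∀ i j k, i < k → j < k → q i k L = q j k L
  disj : ∀ i j k l, i < j → j < k → k < l → ∀ a b, a ≤ L → b ≤ L → q i j a ≠ q k l b
  hom : ∀ σ τ : Fin 4 → ℕ, StrictMono σ → StrictMono τ → ∀ (x y z w : Fin 4) (a b : ℕ),
    a ≤ L → b ≤ L → (q (σ x) (σ y) a = q (σ z) (σ w) b ↔ q (τ x) (τ y) a = q (τ z) (τ w) b)

theorem sm4 {i j k l : ℕ} (h1 : i < j) (h2 : j < k) (h3 : k < l) : StrictMono ![i, j, k, l] := by
  rw [Fin.strictMono_iff_lt_succ]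
  intro x
  fin_cases x
  · exact h1
  · exact h2
  · exact h3

namespace HS

variable {G : SimpleGraph V} {L : ℕ} {q : ℕ → ℕ → ℕ → V}

/-- crossing pairs -/
theorem hX (H : HS G L q) {a b : ℕ} (ha : a ≤ L) (hb : b ≤ L) {i k j l : ℕ} (h1 : i < k)
    (h2 : k < j) (h3 : j < l) (h : q i j a = q k l b) {i' k' j' l' : ℕ} (h1' : i' < k')
    (h2' : k' < j') (h3' : j' < l') : q i' j' a = q k' l' b :=
  (H.hom ![i, k, j, l] ![i', k', j', l'] (sm4 h1 h2 h3) (sm4 h1' h2' h3') 0 2 1 3 a b ha hb).1 h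

/-- nested pairs -/
theorem hN (H : HS G L q) {a b : ℕ} (ha : a ≤ L) (hb : b ≤ L) {i j k l : ℕ} (h1 : i < j)
    (h2 : j < k) (h3 : k < l) (h : q i l a = q j k b) {i' j' k' l' : ℕ} (h1' : i' < j')
    (h2' : j' < k') (h3' : k' < l') : q i' l' a = q j' k' b :=
  (H.hom ![i, j, k, l] ![i', j', k', l'] (sm4 h1 h2 h3) (sm4 h1' h2' h3') 0 3 1 2 a b ha hb).1 h

/-- common left index -/
theorem hLe (H : HS G L q) {a b : ℕ} (ha : a ≤ L) (hb : b ≤ L) {i j k : ℕ} (h1 : i < j)
    (h2 : j < k) (h : q i j a = q i k b) {i' j' k' : ℕ} (h1' : i' < j')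
    (h2' : j' < k') : q i' j' a = q i' k' b :=
  (H.hom ![i, j, k, k + 1] ![i', j', k', k' + 1] (sm4 h1 h2 (by omega)) (sm4 h1' h2' (by omega))
    0 1 0 2 a b ha hb).1 h

/-- common right index -/
theorem hRi (H : HS G L q) {a b : ℕ} (ha : a ≤ L) (hb : b ≤ L) {i j k : ℕ} (h1 : i < j)
    (h2 : j < k) (h : q i k a = q j k b) {i' j' k' : ℕ} (h1' : i' < j')
    (h2' : j' < k') : q i' k' a = q j' k' b :=
  (H.hom ![i, j, k, k + 1] ![i', j', k', k' + 1] (sm4 h1 h2 (by omega)) (sm4 h1' h2' (by omega))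
    0 2 1 2 a b ha hb).1 h

/-- consecutive pairs -/
theorem hMi (H : HS G L q) {a b : ℕ} (ha : a ≤ L) (hb : b ≤ L) {i j k : ℕ} (h1 : i < j)
    (h2 : j < k) (h : q i j a = q j k b) {i' j' k' : ℕ} (h1' : i' < j')
    (h2' : j' < k') : q i' j' a = q j' k' b :=
  (H.hom ![i, j, k, k + 1] ![i', j', k', k' + 1] (sm4 h1 h2 (by omega)) (sm4 h1' h2' (by omega))
    0 1 1 2 a b ha hb).1 h

theorem ncross (H : HS G L q) {a b : ℕ} (ha : a ≤ L) (hb : b ≤ L) {i k j l : ℕ} (h1 : i < k)
    (h2 : k < j) (h3 : j < l) : q i j a ≠ q k l b := by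
  intro h
  have e1 : q 0 2 a = q 1 10 b := H.hX ha hb h1 h2 h3 h (by omega) (by omega) (by omega)
  have e2 : q 0 5 a = q 1 10 b := H.hX ha hb h1 h2 h3 h (by omega) (by omega) (by omega)
  have e3 : q 0 5 a = q 4 10 b := H.hX ha hb h1 h2 h3 h (by omega) (by omega) (by omega)
  have e4 : q 3 5 a = q 4 10 b := H.hX ha hb h1 h2 h3 h (by omega) (by omega) (by omega)
  exact H.disj 0 2 3 5 (by omega) (by omega) (by omega) a a ha ha
    (e1.trans (e2.symm.trans (e3.trans e4.symm)))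

theorem nnest (H : HS G L q) {a b : ℕ} (ha : a ≤ L) (hb : b ≤ L) {i j k l : ℕ} (h1 : i < j)
    (h2 : j < k) (h3 : k < l) : q i l a ≠ q j k b := by
  intro h
  have e1 : q 0 100 a = q 1 2 b := H.hN ha hb h1 h2 h3 h (by omega) (by omega) (by omega)
  have e2 : q 0 100 a = q 3 4 b := H.hN ha hb h1 h2 h3 h (by omega) (by omega) (by omega)
  exact H.disj 1 2 3 4 (by omega) (by omega) (by omega) b b hb hb (e1.symm.trans e2)

/-- disjoint pairs -/
theorem ndisj (H : HS G L q) {a b : ℕ} (ha : a ≤ L) (hb : b ≤ L) {i j k l : ℕ} (h1 : i < j)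
    (h2 : k < l) (hik : i ≠ k) (hil : i ≠ l) (hjk : j ≠ k) (hjl : j ≠ l) : q i j a ≠ q k l b := by
  rcases Nat.lt_or_ge i k with h | h
  · rcases Nat.lt_or_ge j k with h' | h'
    · exact H.disj i j k l h1 h' h2 a b ha hb
    · rcases Nat.lt_or_ge j l with h'' | h''
      · exact H.ncross ha hb h (by omega) h''
      · exact H.nnest ha hb h h2 (by omega)
  · rcases Nat.lt_or_ge l i with h' | h'
    · exact fun e => H.disj k l i j h2 h' h1 b a hb ha e.symm
    · rcases Nat.lt_or_ge l j with h'' | h''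
      · exact fun e => H.ncross hb ha (show k < i by omega) (show i < l by omega) h'' e.symm
      · exact fun e => H.nnest hb ha (show k < i by omega) h1 (show j < l by omega) e.symm

/-- the positions that do not depend on the right index -/
def al (q : ℕ → ℕ → ℕ → V) (a : ℕ) : Prop := q 0 1 a = q 0 2 a

/-- the positions that do not depend on the left index -/
def be (q : ℕ → ℕ → ℕ → V) (a : ℕ) : Prop := q 0 2 a = q 1 2 a

theorem al_eq (H : HS G L q) {a : ℕ} (ha : a ≤ L) (h : al q a) {i j k : ℕ} (h1 : i < j)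
    (h2 : i < k) : q i j a = q i k a := by
  rcases Nat.lt_trichotomy j k with h3 | rfl | h3
  · exact H.hLe ha ha (show 0 < 1 by omega) (show 1 < 2 by omega) h h1 h3
  · rfl
  · exact (H.hLe ha ha (show 0 < 1 by omega) (show 1 < 2 by omega) h h2 h3).symm

theorem be_eq (H : HS G L q) {a : ℕ} (ha : a ≤ L) (h : be q a) {i j k : ℕ} (h1 : i < k)
    (h2 : j < k) : q i k a = q j k a := by
  rcases Nat.lt_trichotomy i j with h3 | rfl | h3
  · exact H.hRi ha ha (show 0 < 1 by omega) (show 1 < 2 by omega) h h3 h2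
  · rfl
  · exact (H.hRi ha ha (show 0 < 1 by omega) (show 1 < 2 by omega) h h3 h1).symm

theorem left_al (H : HS G L q) {a b : ℕ} (ha : a ≤ L) (hb : b ≤ L) {i j k : ℕ} (h1 : i < j)
    (h2 : j < k) (h : q i j a = q i k b) : a = b ∧ al q a := by
  have e1 : q 0 1 a = q 0 3 b := H.hLe ha hb h1 h2 h (by omega) (by omega)
  have e2 : q 0 2 a = q 0 3 b := H.hLe ha hb h1 h2 h (by omega) (by omega)
  have e3 : q 0 1 a = q 0 2 b := H.hLe ha hb h1 h2 h (by omega) (by omega)
  have e4 : a = b := H.inj 0 2 (by omega) a b ha hb (e2.trans (e1.symm.trans e3))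
  subst e4
  exact ⟨rfl, e3⟩

theorem right_be (H : HS G L q) {a b : ℕ} (ha : a ≤ L) (hb : b ≤ L) {i j k : ℕ} (h1 : i < j)
    (h2 : j < k) (h : q i k a = q j k b) : a = b ∧ be q a := by
  have e1 : q 0 3 a = q 1 3 b := H.hRi ha hb h1 h2 h (by omega) (by omega)
  have e2 : q 0 3 a = q 2 3 b := H.hRi ha hb h1 h2 h (by omega) (by omega)
  have e3 : q 1 3 a = q 2 3 b := H.hRi ha hb h1 h2 h (by omega) (by omega)
  have e4 : a = b := H.inj 1 3 (by omega) a b ha hb (e3.trans (e2.symm.trans e1))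
  subst e4
  exact ⟨rfl, H.hRi ha ha h1 h2 h (by omega) (by omega)⟩

theorem mid (H : HS G L q) {a b : ℕ} (ha : a ≤ L) (hb : b ≤ L) {i j k : ℕ} (h1 : i < j)
    (h2 : j < k) (h : q i j a = q j k b) : be q a ∧ al q b := by
  have e1 : q 0 2 a = q 2 3 b := H.hMi ha hb h1 h2 h (by omega) (by omega)
  have e2 : q 1 2 a = q 2 3 b := H.hMi ha hb h1 h2 h (by omega) (by omega)
  have e3 : q 0 1 a = q 1 2 b := H.hMi ha hb h1 h2 h (by omega) (by omega)
  have e4 : q 0 1 a = q 1 3 b := H.hMi ha hb h1 h2 h (by omega) (by omega)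
  refine ⟨e1.trans e2.symm, ?_⟩
  exact H.hLe hb hb (show 1 < 2 by omega) (show 2 < 3 by omega) (e3.symm.trans e4) (by omega)
    (by omega)

theorem not_both (H : HS G L q) {a : ℕ} (ha : a ≤ L) (h : al q a) (h' : be q a) : False :=
  H.disj 0 1 2 3 (by omega) (by omega) (by omega) a a ha ha
    ((H.al_eq ha h (show 0 < 1 by omega) (show 0 < 3 by omega)).trans
      (H.be_eq ha h' (show 0 < 3 by omega) (show 2 < 3 by omega)))

/-- private vertices -/
theorem priv (H : HS G L q) {c e : ℕ} (hc : c ≤ L) (he : e ≤ L) (hal : ¬ al q c)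
    (hbe : ¬ be q c) {i j k l : ℕ} (h1 : i < j) (h2 : k < l) (h : q i j c = q k l e) :
    i = k ∧ j = l ∧ c = e := by
  by_cases hik : i = k
  · subst hik
    rcases Nat.lt_trichotomy j l with h3 | rfl | h3
    · exact absurd (H.left_al hc he h1 h3 h).2 hal
    · exact ⟨rfl, rfl, H.inj i j h1 c e hc he h⟩
    · have := H.left_al he hc h2 h3 h.symm
      exact absurd (this.1 ▸ this.2) hal
  · by_cases hjl : j = l
    · subst hjl
      rcases Nat.lt_or_ge i k with h3 | h3
      · exact absurd (H.right_be hc he h3 h2 h).2 hbe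
      · have := H.right_be he hc (show k < i by omega) h1 h.symm
        exact absurd (this.1 ▸ this.2) hbe
    · by_cases hjk : j = k
      · subst hjk
        exact absurd (H.mid hc he h1 h2 h).1 hbe
      · by_cases hil : i = l
        · subst hil
          exact absurd (H.mid he hc h2 h1 h.symm).2 hal
        · exact absurd h (H.ndisj hc he h1 h2 hik hil hjk hjl)

/-- the two positions -/
theorem exists_pos (H : HS G L q) : ∃ a b, a < b ∧ b ≤ L ∧ al q a ∧ be q b ∧
    ∀ c, a < c → c < b → ¬ al q c ∧ ¬ be q c := by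
  classical
  have hL : be q L := H.right 0 1 2 (by omega) (by omega)
  have h0 : al q 0 := H.left 0 1 2 (by omega) (by omega)
  have hex : ∃ b, be q b := ⟨L, hL⟩
  let b := Nat.find hex
  have hb : be q b := Nat.find_spec hex
  have hbL : b ≤ L := Nat.find_min' hex hL
  have hb0 : 0 < b := by
    rcases Nat.eq_zero_or_pos b with h | h
    · exact (H.not_both (Nat.zero_le L) h0 (h ▸ hb)).elim
    · exact h
  let a := Nat.findGreatest (fun x => al q x) (b - 1)
  have ha : al q a := Nat.findGreatest_spec (P := fun x => al q x) (Nat.zero_le (b - 1)) h0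
  have hab : a ≤ b - 1 := Nat.findGreatest_le (b - 1)
  refine ⟨a, b, by omega, hbL, ha, hb, fun c hac hcb => ⟨?_, Nat.find_min hex hcb⟩⟩
  exact Nat.findGreatest_is_greatest hac (by omega)

/-- the subdivisions -/
theorem hasSub (H : HS G L q) : ∃ r, ∀ t, HasSub G r t := by
  obtain ⟨a, b, hab, hbL, ha, hb, hpr⟩ := H.exists_pos
  have haL : a ≤ L := by omega
  refine ⟨2 * (b - a) - 1, fun t => ?_⟩
  -- the auxiliary index
  let m : Fin t → Fin t → ℕ := fun i j => 10 + 2 * t + i * t + j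
  have hm2 : ∀ i j (k : Fin t), 2 + (k : ℕ) < m i j := by
    intro i j k
    have := k.2
    have h3 : 0 ≤ (i : ℕ) * t := Nat.zero_le _
    show 2 + (k : ℕ) < 10 + 2 * t + i * t + j
    omega
  have hmi : ∀ i j k l, m i j = m k l → i = k ∧ j = l := by
    intro i j k l h
    have h3 : (i : ℕ) * t + j = k * t + l := by
      have : 10 + 2 * t + (i : ℕ) * t + j = 10 + 2 * t + k * t + l := h
      omega
    have h4 := congrArg (· % t) h3
    have h5 := congrArg (· / t) h3
    have ht : 0 < t := Nat.lt_of_le_of_lt (Nat.zero_le _) i.2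
    simp only [Nat.add_comm ((i : ℕ) * t), Nat.add_comm ((k : ℕ) * t),
      Nat.add_mul_mod_self_right, Nat.add_mul_div_right _ _ ht, Nat.mod_eq_of_lt j.2,
      Nat.mod_eq_of_lt l.2, Nat.div_eq_of_lt j.2, Nat.div_eq_of_lt l.2, Nat.zero_add] at h4 h5
    exact ⟨Fin.ext h5, Fin.ext h4⟩
  let X : Fin t → V := fun i => q (2 + i) (3 + i) a
  have hX : ∀ (i : Fin t) (n : ℕ), 2 + (i : ℕ) < n → q (2 + i) n a = X i := fun i n h =>
    H.al_eq haL ha h (by omega)
  let W : Fin t → Fin t → ℕ → V := fun i j s =>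
    if s ≤ b - a then q (2 + i) (m i j) (a + s) else q (2 + j) (m i j) (2 * b - a - s)
  have hcls : ∀ i j s, 1 ≤ s → s ≤ 2 * (b - a) - 1 →
      (∃ c, a < c ∧ c < b ∧ W i j s = q (2 + i) (m i j) c ∧ s = c - a) ∨
      (s = b - a ∧ W i j s = q 0 (m i j) b) ∨
      ∃ c, a < c ∧ c < b ∧ W i j s = q (2 + j) (m i j) c ∧ s = 2 * b - a - c := by
    intro i j s h1 h2
    rcases Nat.lt_trichotomy s (b - a) with h | h | h
    · left
      refine ⟨a + s, by omega, by omega, ?_, by omega⟩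
      show (if s ≤ b - a then _ else _) = _
      rw [if_pos h.le]
    · right
      left
      refine ⟨h, ?_⟩
      show (if s ≤ b - a then _ else _) = _
      rw [if_pos h.le, h, show a + (b - a) = b by omega]
      have h3 := hm2 i j i
      exact H.be_eq hbL hb h3 (by omega)
    · right
      right
      refine ⟨2 * b - a - s, by omega, by omega, ?_, by omega⟩
      show (if s ≤ b - a then _ else _) = _
      rw [if_neg (by omega)]
  have hyX : ∀ i j k, q 0 (m i j) b ≠ X k := by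
    intro i j k
    have h3 := hm2 i j k
    rw [← hX k (m i j + 1) (by omega)]
    exact H.ndisj hbL haL (by omega) (by omega) (by omega) (by omega) (by omega) (by omega)
  have hpX : ∀ n i j c (k : Fin t), a < c → c < b → n < m i j → q n (m i j) c ≠ X k := by
    intro n i j c k h1 h2 hn
    have h3 := hm2 i j k
    rw [← hX k (m i j + 1) (by omega)]
    intro e
    have := (H.priv (by omega) haL (hpr c h1 h2).1 (hpr c h1 h2).2 hn (by omega) e).2.2
    omega
  have hpy : ∀ n i j c k l, a < c → c < b → n < m i j → q n (m i j) c ≠ q 0 (m k l) b := by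
    intro n i j c k l h1 h2 hn e
    have h3 := hm2 k l k
    have := (H.priv (by omega) hbL (hpr c h1 h2).1 (hpr c h1 h2).2 hn (by omega) e).2.2
    omega
  have hpp : ∀ n n' i j c k l c', a < c → c < b → a < c' → c' < b → n < m i j → n' < m k l →
      q n (m i j) c = q n' (m k l) c' → n = n' ∧ m i j = m k l ∧ c = c' := by
    intro n n' i j c k l c' h1 h2 h1' h2' hn hn' e
    exact H.priv (by omega) (by omega) (hpr c h1 h2).1 (hpr c h1 h2).2 hn hn' e
  refine ⟨X, W, ?_, ?_, ?_, ?_⟩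
  · intro i k e
    by_contra hne
    have hne' : (i : ℕ) ≠ k := fun h => hne (Fin.ext h)
    rw [← hX i (10 + i + k) (by omega), ← hX k (11 + i + k) (by omega)] at e
    exact H.ndisj haL haL (by omega) (by omega) (by omega) (by omega) (by omega) (by omega) e
  · intro i j hij
    have hmi' := hm2 i j i
    have hmj' := hm2 i j j
    refine ⟨?_, ?_, ?_⟩
    · show (if 0 ≤ b - a then _ else _) = _
      rw [if_pos (Nat.zero_le _)]
      exact hX i _ hmi'
    · show (if 2 * (b - a) - 1 + 1 ≤ b - a then _ else _) = _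
      rw [if_neg (by omega), show 2 * b - a - (2 * (b - a) - 1 + 1) = a by omega]
      exact hX j _ hmj'
    · intro s hs
      show G.Adj (if s ≤ b - a then _ else _) (if s + 1 ≤ b - a then _ else _)
      rcases Nat.lt_trichotomy s (b - a) with h | h | h
      · rw [if_pos h.le, if_pos (by omega)]
        exact H.adj _ _ hmi' (a + s) (by omega)
      · rw [if_pos h.le, if_neg (by omega), h, show a + (b - a) = b by omega,
          H.be_eq hbL hb hmi' hmj', show 2 * b - a - (b - a + 1) = b - 1 by omega]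
        have h3 := H.adj _ _ hmj' (b - 1) (by omega)
        rw [show b - 1 + 1 = b by omega] at h3
        exact h3.symm
      · rw [if_neg (by omega), if_neg (by omega)]
        have h3 := H.adj _ _ hmj' (2 * b - a - (s + 1)) (by omega)
        rw [show 2 * b - a - (s + 1) + 1 = 2 * b - a - s by omega] at h3
        exact h3.symm
  · intro i j s k hij h1 h2
    have hmi' := hm2 i j i
    have hmj' := hm2 i j j
    rcases hcls i j s h1 h2 with ⟨c, hc1, hc2, hc3, -⟩ | ⟨-, hc3⟩ | ⟨c, hc1, hc2, hc3, -⟩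
    · rw [hc3]
      exact hpX _ _ _ _ _ hc1 hc2 hmi'
    · rw [hc3]
      exact hyX _ _ _
    · rw [hc3]
      exact hpX _ _ _ _ _ hc1 hc2 hmj'
  · intro i j k l s s' hij hkl h1 h2 h1' h2' e
    have hmi' := hm2 i j i
    have hmj' := hm2 i j j
    have hmk' := hm2 k l k
    have hml' := hm2 k l l
    have hij' : (i : ℕ) < j := hij
    have hkl' : (k : ℕ) < l := hkl
    rcases hcls i j s h1 h2 with ⟨c, hc1, hc2, hc3, hc4⟩ | ⟨hc4, hc3⟩ | ⟨c, hc1, hc2, hc3, hc4⟩ <;>
    rcases hcls k l s' h1' h2' with ⟨c', hd1, hd2, hd3, hd4⟩ | ⟨hd4, hd3⟩ |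
      ⟨c', hd1, hd2, hd3, hd4⟩ <;> rw [hc3, hd3] at e
    · obtain ⟨-, e2, e3⟩ := hpp _ _ _ _ _ _ _ _ hc1 hc2 hd1 hd2 hmi' hmk' e
      obtain ⟨rfl, rfl⟩ := hmi _ _ _ _ e2
      exact ⟨rfl, rfl, by omega⟩
    · exact absurd e (hpy _ _ _ _ _ _ hc1 hc2 hmi')
    · obtain ⟨e1, e2, e3⟩ := hpp _ _ _ _ _ _ _ _ hc1 hc2 hd1 hd2 hmi' hml' e
      obtain ⟨rfl, rfl⟩ := hmi _ _ _ _ e2
      exfalso
      omega
    · exact absurd e.symm (hpy _ _ _ _ _ _ hd1 hd2 hmk')
    · by_cases hm : m i j = m k l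
      · obtain ⟨rfl, rfl⟩ := hmi _ _ _ _ hm
        exact ⟨rfl, rfl, by omega⟩
      · exfalso
        have e2 : q 0 (m k l) b = q 1 (m k l) b := H.be_eq hbL hb (by omega) (by omega)
        rw [e2] at e
        exact H.ndisj hbL hbL (by omega) (by omega) (by omega) (by omega) (by omega) hm e
    · exact absurd e.symm (hpy _ _ _ _ _ _ hd1 hd2 hml')
    · obtain ⟨e1, e2, e3⟩ := hpp _ _ _ _ _ _ _ _ hc1 hc2 hd1 hd2 hmj' hmk' e
      obtain ⟨rfl, rfl⟩ := hmi _ _ _ _ e2
      exfalso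
      omega
    · exact absurd e (hpy _ _ _ _ _ _ hc1 hc2 hmj')
    · obtain ⟨-, e2, e3⟩ := hpp _ _ _ _ _ _ _ _ hc1 hc2 hd1 hd2 hmj' hml' e
      obtain ⟨rfl, rfl⟩ := hmi _ _ _ _ e2
      exact ⟨rfl, rfl, by omega⟩

end HS

open Pool.Agent.N627.WS in
/-- a lazy walk gives a walk -/
theorem ch_of_lazy (G : SimpleGraph V) (R : ℕ) (P : ℕ → V)
    (h : ∀ a, a < R → P a = P (a + 1) ∨ G.Adj (P a) (P (a + 1))) :
    ∀ m, m ≤ R → ∃ n p, Ch G {x | ∃ a, a ≤ R ∧ P a = x} (P 0) (P m) n p := by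
  intro m
  induction m with
  | zero =>
    intro _
    refine ⟨0, fun _ => P 0, rfl, rfl, fun a _ => ⟨0, Nat.zero_le _, rfl⟩, fun a ha => ?_⟩
    exact absurd ha (Nat.not_lt_zero a)
  | succ m ih =>
    intro hm
    obtain ⟨n, p, h0, h1, h2, h3⟩ := ih (by omega)
    rcases h m (by omega) with e | e
    · refine ⟨n, p, h0, h1.trans e, h2, h3⟩
    · refine ⟨n + 1, fun x => if x ≤ n then p x else P (m + 1), ?_, ?_, ?_, ?_⟩
      · show (if 0 ≤ n then p 0 else _) = _
        rw [if_pos (Nat.zero_le _), h0]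
      · show (if n + 1 ≤ n then _ else _) = _
        rw [if_neg (by omega)]
      · intro a ha
        show (if a ≤ n then p a else P (m + 1)) ∈ _
        split_ifs with h4
        · exact h2 a h4
        · exact ⟨m + 1, hm, rfl⟩
      · intro a ha
        show G.Adj (if a ≤ n then p a else P (m + 1)) (if a + 1 ≤ n then p (a + 1) else P (m + 1))
        rw [if_pos (by omega)]
        split_ifs with h4
        · exact h3 a (by omega)
        · have h5 : a = n := by omega
          rw [h5, h1]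
          exact e

open Pool.Agent.N627.WS in
/-- replacing a lazy walk by a path of length at most `R` inside its set of vertices -/
theorem exists_path (G : SimpleGraph V) (R : ℕ) (P : ℕ → V)
    (h : ∀ a, a < R → P a = P (a + 1) ∨ G.Adj (P a) (P (a + 1))) :
    ∃ (n : ℕ) (p : ℕ → V), n ≤ R ∧ p 0 = P 0 ∧ p n = P R ∧
      (∀ a, a ≤ n → ∃ b, b ≤ R ∧ P b = p a) ∧ (∀ a, a < n → G.Adj (p a) (p (a + 1))) ∧
      ∀ a b, a ≤ n → b ≤ n → p a = p b → a = b := by
  obtain ⟨n, p, ⟨h0, h1, h2, h3⟩, h4, -⟩ := exists_induced (ch_of_lazy G R P h R le_rfl)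
  refine ⟨n, p, ?_, h0, h1, h2, h3, h4⟩
  choose g hg1 hg2 using h2
  let f : Fin (n + 1) → Fin (R + 1) := fun a => ⟨g a (by omega), by have := hg1 a (by omega); omega⟩
  have hf : Function.Injective f := by
    intro a b e
    have e1 : g a (by omega) = g b (by omega) := congrArg Fin.val e
    have e2 : p a = p b := by
      rw [← hg2 a (by omega), ← hg2 b (by omega), e1]
    exact Fin.ext (h4 a b (by omega) (by omega) e2)
  have := Fintype.card_le_of_injective f hf
  simpa using this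

open Pool.Agent.N627.WS in
theorem a1 : S_A1 := by
  intro V G R v P hP hd
  -- paths
  have key : ∀ i j, ∃ (n : ℕ) (p : ℕ → V), i < j → n ≤ R ∧ p 0 = v i ∧ p n = v j ∧
      (∀ a, a ≤ n → ∃ b, b ≤ R ∧ P i j b = p a) ∧ (∀ a, a < n → G.Adj (p a) (p (a + 1))) ∧
      ∀ a b, a ≤ n → b ≤ n → p a = p b → a = b := by
    intro i j
    by_cases hij : i < j
    · obtain ⟨h0, h1, h2⟩ := hP i j hij
      obtain ⟨n, p, h3, h4, h5, h6⟩ := exists_path G R (P i j) h2
      exact ⟨n, p, fun _ => ⟨h3, h4.trans h0, h5.trans h1, h6⟩⟩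
    · exact ⟨0, fun _ => v 0, fun h => absurd h hij⟩
  choose n p hp using key
  -- Ramsey
  obtain ⟨φ, hφ, hc⟩ := TK.ramsey4 (C := Fin (R + 1) × (Fin 4 → Fin 4 → Fin 4 → Fin 4 →
      Fin (R + 1) → Fin (R + 1) → Prop)) fun σ =>
    (⟨min (n (σ 0) (σ 1)) R, by omega⟩, fun x y z w a b =>
      p (σ x) (σ y) a = p (σ z) (σ w) b)
  obtain ⟨L, hL⟩ : ∃ L, ∀ i j, i < j → n (φ i) (φ j) = L := by
    refine ⟨n (φ 0) (φ 1), fun i j hij => ?_⟩
    obtain ⟨σ, hσ, hσ0, hσ1⟩ := TK.exists_strictMono_pair hij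
    obtain ⟨τ, hτ, hτ0, hτ1⟩ := TK.exists_strictMono_pair (show 0 < 1 by omega)
    have h1 := congrArg (fun q => (q.1 : ℕ)) (hc σ τ hσ hτ)
    simp only [Function.comp, hσ0, hσ1, hτ0, hτ1] at h1
    have h2 := (hp _ _ (hφ hij)).1
    have h3 := (hp _ _ (hφ (show 0 < 1 by omega))).1
    omega
  have hLR : L ≤ R := by
    have := (hp _ _ (hφ (show 0 < 1 by omega))).1
    rwa [hL 0 1 (by omega)] at this
  have H : HS G L (fun i j a => p (φ i) (φ j) a) := by
    refine ⟨?_, ?_, ?_, ?_, ?_, ?_⟩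
    · intro i j hij a ha
      exact (hp _ _ (hφ hij)).2.2.2.2.1 a (by rw [hL i j hij]; exact ha)
    · intro i j hij a b ha hb
      exact (hp _ _ (hφ hij)).2.2.2.2.2 a b (by rw [hL i j hij]; exact ha)
        (by rw [hL i j hij]; exact hb)
    · intro i j k hij hik
      show p (φ i) (φ j) 0 = p (φ i) (φ k) 0
      rw [(hp _ _ (hφ hij)).2.1, (hp _ _ (hφ hik)).2.1]
    · intro i j k hik hjk
      show p (φ i) (φ k) L = p (φ j) (φ k) L
      have h1 := (hp _ _ (hφ hik)).2.2.1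
      have h2 := (hp _ _ (hφ hjk)).2.2.1
      rw [hL _ _ hik] at h1
      rw [hL _ _ hjk] at h2
      rw [h1, h2]
    · intro i j k l hij hjk hkl a b ha hb e
      obtain ⟨a', ha', e1⟩ := (hp _ _ (hφ hij)).2.2.2.1 a (by rw [hL _ _ hij]; exact ha)
      obtain ⟨b', hb', e2⟩ := (hp _ _ (hφ hkl)).2.2.2.1 b (by rw [hL _ _ hkl]; exact hb)
      exact hd (φ i) (φ j) (φ k) (φ l) (hφ hij) (hφ hjk) (hφ hkl) a' b' ha' hb'
        (e1.trans (e.trans e2.symm))
    · intro σ τ hσ hτ x y z w a b ha hb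
      have h1 := congrArg (fun q => q.2 x y z w ⟨a, by omega⟩ ⟨b, by omega⟩) (hc σ τ hσ hτ)
      exact iff_of_eq h1
  exact H.hasSub

end Pool.Agent.N833.ND
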